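import Pool.Agent.X184.SS.Stm2
open Finset
namespace Pool.Agent.X98.SP
open Pool.Agent.X184.SS

theorem t_JOINT : S_JOINT := by
  classical
  intro hU hH hL n N hN ε hε d u
  obtain ⟨p, hp⟩ := hL n N hN ε hε
  choose Zf Gf h1 h2 h3 h4 h5 h6 h7 h8 using hp
  let us : ℕ → ℕ := fun l => Nat.rec (max u (d * p)) (fun _ r => r + (Zf r).support.sup id + 1) l
  have us0 : us 0 = max u (d * p) := rfl
  have uss : ∀ l, us (l+1) = us l + (Zf (us l)).support.sup id + 1 := fun l => rfl
  have hmono : Monotone us := monotone_nat_of_le_succ (fun l => by rw [uss]; omega)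
  have hge : ∀ l, max u (d * p) ≤ us l := fun l => by rw [← us0]; exact hmono (Nat.zero_le l)
  have hlt : ∀ l, ∀ j ∈ (Zf (us l)).support, j < us (l+1) := by
    intro l j hj
    have : j ≤ (Zf (us l)).support.sup id := Finset.le_sup (f := id) hj
    rw [uss]; omega
  have hsep : ∀ l l', l < l' → ∀ a ∈ (Zf (us l)).support, ∀ b ∈ (Zf (us l')).support, a < b := by
    intro l l' hll a ha b hb
    have k1 := hlt l a ha
    have k2 : us (l+1) ≤ us l' := hmono hll
    have k3 := (h3 (us l') b hb).2
    omega
  refine ⟨fun l => if l < d then Zf (us l) else 0, ?_, ?_, ?_, ?_, ?_, ?_, ?_⟩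
  · intro l j
    by_cases hl : l < d
    · simp only [hl, if_true]; exact h1 _ j
    · simp [hl]
  · intro l hl
    simp only [hl, if_true]; exact h2 _
  · intro l hl
    simp [Nat.not_lt.mpr hl]
  · intro l j hj
    by_cases hl : l < d
    · simp only [hl, if_true] at hj
      have := h3 _ j hj
      have k := hge l
      exact ⟨this.1, by omega⟩
    · simp [hl] at hj
  · intro l l' hne
    by_cases hl : l < d
    · by_cases hl' : l' < d
      · simp only [hl, hl', if_true]
        rw [Finset.disjoint_left]
        intro a ha hb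
        rcases lt_or_gt_of_ne hne with h | h
        · exact lt_irrefl _ (hsep l l' h a ha a hb)
        · exact lt_irrefl _ (hsep l' l h a hb a ha)
      · simp [hl']
    · simp [hl]
  · let G : Fin (d * p) → Finset ℕ := fun i => Gf (us (finProdFinEquiv.symm i).1) (finProdFinEquiv.symm i).2
    have hmem := hU n (d * p) G (fun i => h5 _ _) ?_ ?_
    · refine hH (n+1) _ _ hmem ?_
      intro j hj
      rw [Finset.mem_biUnion] at hj
      obtain ⟨l, hl, hj⟩ := hj
      have hl' := Finset.mem_range.mp hl
      simp only [hl', if_true] at hj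
      have := h4 (us l) hj
      rw [Finset.mem_biUnion] at this
      obtain ⟨r, _, hr⟩ := this
      rw [Finset.mem_biUnion]
      refine ⟨finProdFinEquiv (⟨l, hl'⟩, r), Finset.mem_univ _, ?_⟩
      simp only [G, Equiv.symm_apply_apply]
      exact hr
    · intro i j hij a ha b hb
      obtain ⟨⟨x, y⟩, rfl⟩ := finProdFinEquiv.surjective i
      obtain ⟨⟨x', y'⟩, rfl⟩ := finProdFinEquiv.surjective j
      simp only [G, Equiv.symm_apply_apply] at ha hb
      have hval : y.1 + p * x.1 < y'.1 + p * x'.1 := by
        have := Fin.lt_def.mp hij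
        simpa [finProdFinEquiv] using this
      rcases lt_trichotomy x x' with h | h | h
      · exact hsep x x' h a (h7 _ _ a ha) b (h7 _ _ b hb)
      · subst h
        have hy : y < y' := by
          rw [Fin.lt_def]; omega
        exact h6 _ y y' hy a ha b hb
      · exfalso
        have hx : x'.1 + 1 ≤ x.1 := h
        have := Nat.mul_le_mul_left p hx
        have hy' := y'.2
        rw [Nat.mul_add, Nat.mul_one] at this
        omega
    · intro i a ha
      have := (h3 _ a (h7 _ _ a ha)).2
      have k := hge (finProdFinEquiv.symm i).1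
      omega
  · intro l F hF
    by_cases hl : l < d
    · simp only [hl, if_true]; exact h8 _ F hF
    · simp [hl]; exact hε.le

end Pool.Agent.X98.SP
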